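import Pool.Agent.Y320.CM.Basic2

/-!
# Maps preserving absolute cross ratios preserve or conjugate the complex ones
-/

set_option autoImplicit false

namespace Pool.Agent.Y948.ST

open Pool.Agent.Y320.CM

/-- the determinant of the vectors of two points -/
noncomputable def W (x y : Sph) : ℂ := wedge (sp x) (sp y)

theorem W_pl (x y u v : Sph) : W x y * W u v - W x u * W y v + W x v * W y u = 0 := by
  unfold W wedge
  ring

theorem W_swap (x y : Sph) : W x y = - W y x := by
  unfold W wedge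
  ring

theorem W_self (x : Sph) : W x x = 0 := by
  unfold W wedge
  ring

theorem W_ne {x y : Sph} (h : x ≠ y) : W x y ≠ 0 := fun h0 => h ((wedge_eq_zero_iff x y).1 h0)

theorem chi_W (x y u v : Sph) : chi x y u v = W x y * W u v / (W x u * W y v) := rfl

/-- the difference of two coordinates -/
theorem Z_sub {a b c x y : Sph} (hx : x ≠ a) (hy : y ≠ a) (hbc : b ≠ c) :
    chi x b a c - chi y b a c = -(W a c * W a b / W b c) * (W x y / (W x a * W y a)) := by
  rw [chi_W, chi_W]
  have h1 := W_ne hx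
  have h2 := W_ne hy
  have h3 := W_ne hbc
  have h4 := W_pl x y a b
  field_simp
  linear_combination (W a c) * h4

theorem Z_sub' {a b c x y : Sph} (hx : x ≠ a) (hy : y ≠ a) (hyb : y ≠ b) (hbc : b ≠ c) :
    chi x b a c - chi y b a c = -(chi x y a b * chi y b a c) := by
  rw [Z_sub hx hy hbc, chi_W, chi_W]
  have h1 := W_ne hx
  have h2 := W_ne hy
  have h3 := W_ne hbc
  have h4 := W_ne hyb
  field_simp

theorem chi_zero (a b c : Sph) : chi b b a c = 0 := by
  rw [chi_W, W_self, zero_mul, zero_div]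

theorem chi_one {a b c : Sph} (hac : a ≠ c) (hbc : b ≠ c) : chi c b a c = 1 := by
  rw [chi_W, W_swap c b, W_swap c a]
  have h1 := W_ne hac
  have h2 := W_ne hbc
  field_simp

/-- cross ratios are determined by the coordinates -/
theorem chi_of_Z {f : Sph → Sph} (hf : Function.Injective f) (s : ℂ →+* ℂ) {a b c : Sph}
    (hab : a ≠ b) (hac : a ≠ c) (hbc : b ≠ c)
    (h : ∀ x, x ≠ a → chi (f x) (f b) (f a) (f c) = s (chi x b a c)) (x y u v : Sph) :
    chi (f x) (f y) (f u) (f v) = s (chi x y u v) := by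
  classical
  have hs : ∀ z : ℂ, z ≠ 0 → s z ≠ 0 := fun z hz => (map_ne_zero s).2 hz
  obtain ⟨κ, hκ⟩ : ∃ κ : ℂ, κ = W a c * W a b / W b c := ⟨_, rfl⟩
  obtain ⟨κ', hκ'⟩ : ∃ κ' : ℂ, κ' = W (f a) (f c) * W (f a) (f b) / W (f b) (f c) := ⟨_, rfl⟩
  have hκ0 : κ ≠ 0 := by
    rw [hκ]
    exact div_ne_zero (mul_ne_zero (W_ne hac) (W_ne hab)) (W_ne hbc)
  have hκ0' : κ' ≠ 0 := by
    rw [hκ']
    exact div_ne_zero (mul_ne_zero (W_ne (hf.ne hac)) (W_ne (hf.ne hab))) (W_ne (hf.ne hbc))
  obtain ⟨θ, hθ⟩ : ∃ θ : ℂ, θ = s κ / κ' := ⟨_, rfl⟩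
  have hθ0 : θ ≠ 0 := by
    rw [hθ]
    exact div_ne_zero (hs _ hκ0) hκ0'
  set μ : Sph → ℂ := fun x => if x = a then θ⁻¹ else W (f x) (f a) / s (W x a) with hμ
  have hμa : μ a = θ⁻¹ := if_pos rfl
  have hμx : ∀ x, x ≠ a → μ x = W (f x) (f a) / s (W x a) := fun x hx => if_neg hx
  have hμ0 : ∀ x, μ x ≠ 0 := by
    intro x
    by_cases hx : x = a
    · rw [hx, hμa]
      exact inv_ne_zero hθ0
    · rw [hμx x hx]
      exact div_ne_zero (W_ne (hf.ne hx)) (hs _ (W_ne hx))
  have hW : ∀ x y, W (f x) (f y) = θ * μ x * μ y * s (W x y) := by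
    intro x y
    by_cases hx : x = a
    · by_cases hy : y = a
      · rw [hx, hy, W_self, W_self, map_zero, mul_zero]
      · rw [hx, hμa, hμx y hy, W_swap (f a) (f y), W_swap a y, map_neg]
        have h1 := hs _ (W_ne hy)
        field_simp
    · by_cases hy : y = a
      · rw [hy, hμa, hμx x hx]
        have h1 := hs _ (W_ne hx)
        field_simp
      · have h1 := Z_sub (hf.ne hx) (hf.ne hy) (hf.ne hbc)
        rw [h x hx, h y hy, ← map_sub, Z_sub hx hy hbc, ← hκ, ← hκ', map_mul, map_neg, map_div₀,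
          map_mul] at h1
        have h2 := hs _ (W_ne hx)
        have h3 := hs _ (W_ne hy)
        have h4 := W_ne (hf.ne hx)
        have h5 := W_ne (hf.ne hy)
        rw [hμx x hx, hμx y hy, hθ]
        field_simp at h1 ⊢
        linear_combination h1
  rw [chi_W, chi_W, map_div₀, map_mul, map_mul, hW x y, hW u v, hW x u, hW y v]
  have e1 : θ * μ x * μ y * s (W x y) * (θ * μ u * μ v * s (W u v)) =
      (θ * θ * μ x * μ y * μ u * μ v) * (s (W x y) * s (W u v)) := by ring
  have e2 : θ * μ x * μ u * s (W x u) * (θ * μ y * μ v * s (W y v)) =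
      (θ * θ * μ x * μ y * μ u * μ v) * (s (W x u) * s (W y v)) := by ring
  rw [e1, e2]
  exact mul_div_mul_left _ _ (mul_ne_zero (mul_ne_zero (mul_ne_zero (mul_ne_zero
    (mul_ne_zero hθ0 hθ0) (hμ0 x)) (hμ0 y)) (hμ0 u)) (hμ0 v))

theorem two_cases {z w : ℂ} (h0 : ‖w‖ = ‖z‖) (h1 : ‖w - 1‖ = ‖z - 1‖) :
    w = z ∨ w = (starRingEnd ℂ) z := by
  have key : ∀ z : ℂ, ‖z‖ ^ 2 = z.re ^ 2 + z.im ^ 2 := by
    intro z
    rw [← Complex.normSq_eq_norm_sq, Complex.normSq_apply]; ring
  have e0 := key w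
  rw [h0, key z] at e0
  have e1 := key (w - 1)
  rw [h1, key (z - 1)] at e1
  simp only [Complex.sub_re, Complex.sub_im, Complex.one_re, Complex.one_im, sub_zero] at e1
  have hre : w.re = z.re := by nlinarith
  rw [hre] at e0
  have him : (w.im - z.im) * (w.im + z.im) = 0 := by nlinarith
  rcases mul_eq_zero.1 him with h | h
  · left
    exact Complex.ext hre (by linarith)
  · right
    refine Complex.ext ?_ ?_
    · rw [Complex.conj_re, hre]
    · rw [Complex.conj_im]
      linarith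

theorem consistent {z w : ℂ} (h : ‖w - (starRingEnd ℂ) z‖ = ‖w - z‖) : w.im = 0 ∨ z.im = 0 := by
  have key : ∀ z : ℂ, ‖z‖ ^ 2 = z.re ^ 2 + z.im ^ 2 := by
    intro z
    rw [← Complex.normSq_eq_norm_sq, Complex.normSq_apply]; ring
  have e := key (w - (starRingEnd ℂ) z)
  rw [h, key (w - z)] at e
  simp only [Complex.sub_re, Complex.sub_im, Complex.conj_re, Complex.conj_im] at e
  have : w.im * z.im = 0 := by nlinarith
  exact mul_eq_zero.1 this

theorem dich_main (f : Sph → Sph) (hf : Function.Injective f)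
    (hcr : ∀ a b c e : Sph, D4 a b c e → cr (f a) (f b) (f c) (f e) = cr a b c e) :
    (∀ a b c e : Sph, D4 a b c e → chi (f a) (f b) (f c) (f e) = chi a b c e) ∨
    (∀ a b c e : Sph, D4 a b c e →
      chi (f a) (f b) (f c) (f e) = (starRingEnd ℂ) (chi a b c e)) := by
  by_cases hex : ∃ a b c e : Sph, D4 a b c e
  swap
  · left
    intro a b c e h
    exact absurd ⟨a, b, c, e, h⟩ hex
  obtain ⟨a, b, c, -, hab, hac, -, hbc, -, -⟩ := hex
  have hn : ∀ x y u v : Sph, D4 x y u v →
      ‖chi (f x) (f y) (f u) (f v)‖ = ‖chi x y u v‖ := by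
    intro x y u v hD
    rw [norm_chi, norm_chi, hcr x y u v hD]
  have hZn : ∀ y, y ≠ a → ‖chi (f y) (f b) (f a) (f c)‖ = ‖chi y b a c‖ := by
    intro y hy
    by_cases hyb : y = b
    · rw [hyb, chi_zero, chi_zero]
    · by_cases hyc : y = c
      · rw [hyc, chi_one hac hbc, chi_one (hf.ne hac) (hf.ne hbc)]
      · exact hn y b a c ⟨hyb, hy, hyc, hab.symm, hbc, hac⟩
  have hZ : ∀ x y, x ≠ a → y ≠ a →
      ‖chi (f x) (f b) (f a) (f c) - chi (f y) (f b) (f a) (f c)‖ =
        ‖chi x b a c - chi y b a c‖ := by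
    intro x y hx hy
    by_cases hyb : y = b
    · rw [hyb, chi_zero, chi_zero, sub_zero, sub_zero]
      exact hZn x hx
    · by_cases hxb : x = b
      · rw [hxb, chi_zero, chi_zero, zero_sub, zero_sub, norm_neg, norm_neg]
        exact hZn y hy
      · by_cases hxy : x = y
        · rw [hxy, sub_self, sub_self]
        · rw [Z_sub' hx hy hyb hbc, Z_sub' (hf.ne hx) (hf.ne hy) (hf.ne hyb) (hf.ne hbc), norm_neg,
            norm_neg, norm_mul, norm_mul, hZn y hy,
            hn x y a b ⟨hxy, hx, hxb, hy, hyb, hab⟩]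
  have h2 : ∀ x, x ≠ a → chi (f x) (f b) (f a) (f c) = chi x b a c ∨
      chi (f x) (f b) (f a) (f c) = (starRingEnd ℂ) (chi x b a c) := by
    intro x hx
    refine two_cases (hZn x hx) ?_
    have h1 := hZ x c hx hac.symm
    rwa [chi_one hac hbc, chi_one (hf.ne hac) (hf.ne hbc)] at h1
  by_cases hall : ∀ x, x ≠ a → chi (f x) (f b) (f a) (f c) = chi x b a c
  · left
    intro x y u v _
    exact chi_of_Z hf (RingHom.id ℂ) hab hac hbc hall x y u v
  · right
    push Not at hall
    obtain ⟨y, hy, hyne⟩ := hall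
    have hyc := (h2 y hy).resolve_left hyne
    have hyim : (chi y b a c).im ≠ 0 := by
      intro h0
      apply hyne
      rw [hyc]
      exact Complex.conj_eq_iff_im.2 h0
    have hall' : ∀ x, x ≠ a →
        chi (f x) (f b) (f a) (f c) = (starRingEnd ℂ) (chi x b a c) := by
      intro x hx
      rcases h2 x hx with h | h
      · have h3 := hZ x y hx hy
        rw [h, hyc] at h3
        have h4 := (consistent h3).resolve_right hyim
        rw [h]
        exact (Complex.conj_eq_iff_im.2 h4).symm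
      · exact h
    intro x y u v _
    exact chi_of_Z hf (starRingEnd ℂ) hab hac hbc hall' x y u v

end Pool.Agent.Y948.ST
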