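import Pool.Agent.Y320.ST.Stm3
import Pool.Agent.Y948.ST.DichA

/-!
# ST-DICH
-/

set_option autoImplicit false

namespace Pool.Agent.Y948.ST

theorem t_DICH : Pool.Agent.Y320.ST.S_DICH := fun f hf hcr => dich_main f hf hcr

end Pool.Agent.Y948.ST
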